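import Pool.Agent.K3h75.ND.StmE
import Pool.Agent.K3h49.ND.G0

/-!
# Project ND (helper75, MP_6a3dac_ag), brick G0E: from `GoodVecE` to prime ideals of localizations
(helper62, adapted from `Pool.Agent.K3h24.ND.G0O`)
-/

set_option autoImplicit false

namespace Pool.Agent.K3h62.ND

open MvPolynomial Pool.Agent.TH214.RM NumberField Pool.Agent.K3h75.ND
open Pool.Agent.K3h49.ND (form_hom eval_class eval_deh deh_X_self euler_zero)

theorem map_form' {N d : ℕ} {R S : Type} [CommRing R] [CommRing S] (φ : R →+* S)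
    (a : Mon N d → R) : map φ (form a) = form fun m => φ (a m) := by
  unfold form
  rw [map_sum]
  refine Finset.sum_congr rfl fun m _ => ?_
  rw [map_monomial]

theorem smooth {n d P₀ : ℕ} {O : Type} [CommRing O] {a : Mon (n + 1 + 1) d → O}
    (ha : GoodVecE P₀ a) (K R : Type) [Field K] [CharZero K] [CommRing R] [Algebra R K]
    (θ : O →+* R) :
    Smooth (map (algebraMap R K) (form fun m => θ (a m))) := by
  intro i
  rw [map_form', Ideal.radical_eq_sInf, Submodule.mem_sInf]
  rintro P ⟨hP, hPr⟩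
  by_contra hi
  have := hPr
  let B := MvPolynomial (Fin (n + 1 + 1)) K ⧸ P
  let k := FractionRing B
  let ψ : MvPolynomial (Fin (n + 1 + 1)) K →+* k := (algebraMap B k).comp (Ideal.Quotient.mk P)
  have hψ : ∀ Q, ψ Q = 0 → Q ∈ P := by
    intro Q hQ
    have h1 : algebraMap B k (Ideal.Quotient.mk P Q) = 0 := hQ
    rw [map_eq_zero_iff _ (IsFractionRing.injective B k)] at h1
    exact Ideal.Quotient.eq_zero_iff_mem.1 h1
  have hψ' : ∀ Q ∈ P, ψ Q = 0 := by
    intro Q hQ
    change algebraMap B k (Ideal.Quotient.mk P Q) = 0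
    rw [Ideal.Quotient.eq_zero_iff_mem.2 hQ, map_zero]
  have : CharZero k := charZero_of_injective_ringHom (ψ.comp C).injective
  let φ : O →+* k := (ψ.comp C).comp ((algebraMap R K).comp θ)
  have h1 : form (fun m => φ (a m)) =
      map (ψ.comp C) (form fun m => algebraMap R K (θ (a m))) := by
    rw [map_form']
    rfl
  have hx := ha.1 k φ (fun i => ψ (X i)) (fun j => by
    rw [h1, pderiv_map, eval_class]
    exact hψ' _ (hP (Ideal.subset_span ⟨j, rfl⟩)))
  exact hi (hψ _ (congrFun hx i))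

theorem nodal {n d P₀ : ℕ} {O : Type} [CommRing O] {a : Mon (n + 1 + 1) d → O}
    (ha : GoodVecE P₀ a) (E R : Type) [Field E] [NumberField E] [CommRing R] [Algebra (𝓞 E) R]
    (M : Submonoid (𝓞 E)) [IsLocalization M R]
    (hP : ∀ p : ℕ, p.Prime → p ≤ P₀ → IsUnit (p : R))
    (θ : O →+* R) (𝔭 : Ideal R) (h0 : 𝔭 ≠ ⊥) :
    Nod 𝔭 (form fun m => θ (a m)) := by
  intro s Q hQ hC hdeh
  by_contra hcon
  rw [not_or, not_exists, not_not] at hcon
  obtain ⟨hder, hdt⟩ := hcon
  have hder' : ∀ j, pderiv j (deh s (form fun m => θ (a m))) ∈ Q := by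
    intro j
    by_contra h
    exact hder j h
  have := hQ
  let B := MvPolynomial {j : Fin (n + 1 + 1) // j ≠ s} R ⧸ Q
  let k := FractionRing B
  let ψ : MvPolynomial {j : Fin (n + 1 + 1) // j ≠ s} R →+* k :=
    (algebraMap B k).comp (Ideal.Quotient.mk Q)
  have hψ' : ∀ P ∈ Q, ψ P = 0 := by
    intro P hP
    change algebraMap B k (Ideal.Quotient.mk Q P) = 0
    rw [Ideal.Quotient.eq_zero_iff_mem.2 hP, map_zero]
  -- an integer in `𝔭`
  obtain ⟨N, hN0, hN⟩ : ∃ N : ℕ, N ≠ 0 ∧ (N : R) ∈ 𝔭 := by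
    obtain ⟨x, hx, hx0⟩ := Submodule.exists_mem_ne_zero_of_ne_bot h0
    obtain ⟨⟨b, c⟩, hbc⟩ := IsLocalization.surj M x
    have hb0 : b ≠ 0 := by
      rintro rfl
      simp only [map_zero] at hbc
      exact hx0 ((IsLocalization.map_units R c).mul_left_eq_zero.1 hbc)
    have hb : algebraMap (𝓞 E) R b ∈ 𝔭 := by
      simp only at hbc
      rw [← hbc]
      exact 𝔭.mul_mem_right _ hx
    refine ⟨Ideal.absNorm (Ideal.span {b}), ?_, ?_⟩
    · rw [Ne, Ideal.absNorm_eq_zero_iff, Ideal.span_singleton_eq_bot]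
      exact hb0
    · have h1 : ((Ideal.absNorm (Ideal.span {b}) : ℕ) : 𝓞 E) ∈ Ideal.span {b} :=
        Ideal.absNorm_mem _
      obtain ⟨t, ht⟩ := Ideal.mem_span_singleton'.1 h1
      have h2 := congrArg (algebraMap (𝓞 E) R) ht
      rw [map_mul, map_natCast] at h2
      rw [← h2]
      exact 𝔭.mul_mem_left _ hb
  -- the characteristic of `k`
  obtain ⟨p, hp⟩ := CharP.exists k
  have hpp : p.Prime := by
    rcases CharP.char_is_prime_or_zero k p with h | h
    · exact h
    · subst h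
      have : CharZero k := CharP.charP_to_charZero k
      exfalso
      have h3 : ψ (C (N : R)) = 0 := hψ' _ ((hC _).2 hN)
      rw [map_natCast C, map_natCast] at h3
      exact hN0 (Nat.cast_eq_zero.1 h3)
  have hpP : P₀ < p := by
    by_contra hle
    have h1 : IsUnit ((ψ.comp C) (p : R)) := (hP p hpp (not_lt.1 hle)).map (ψ.comp C)
    rw [map_natCast, CharP.cast_eq_zero] at h1
    exact not_isUnit_zero h1
  let φ : O →+* k := (ψ.comp C).comp θ
  have hform : form (fun m => φ (a m)) =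
      map (ψ.comp C) (form fun m => θ (a m)) := by
    rw [map_form']
    rfl
  let x : Fin (n + 1 + 1) → k := fun i => ψ (deh s (X i : MvPolynomial (Fin (n + 1 + 1)) R))
  have hxs : x s = 1 := by
    change ψ (deh s (X s)) = 1
    rw [deh_X_self, map_one]
  have hF : eval x (form fun m => φ (a m)) = 0 := by
    rw [hform, eval_deh]
    exact hψ' _ hdeh
  have hne : ∀ i, i ≠ s → eval x (pderiv i (form fun m => φ (a m))) = 0 := by
    intro i hi
    rw [hform, pderiv_map, eval_deh]
    have h1 := pderiv_deh s ⟨i, hi⟩ (form fun m => θ (a m))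
    rw [← h1]
    exact hψ' _ (hder' ⟨i, hi⟩)
  have hall : ∀ i, eval x (pderiv i (form fun m => φ (a m))) = 0 :=
    euler_zero _ (form_hom _) s x hxs hF hne
  refine ha.2 p hpp hpP k φ x s hxs hF hall ?_
  have h1 : ψ (hess (deh s (form fun m => θ (a m)))).det = 0 := hψ' _ hdt
  rw [RingHom.map_det] at h1
  unfold hdet
  rw [← h1]
  congr 1
  ext i j
  simp only [Matrix.of_apply, RingHom.mapMatrix_apply, Matrix.map_apply, hess]
  rw [pderiv_deh s j, pderiv_deh s i, ← eval_deh s ψ, hform, pderiv_map, pderiv_map]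

/-- **Brick G0E.** -/
theorem t_G0E : S_G0E := by
  intro n d P O _ a ha E R _ _ _ _ _ _ M _ hM hP ψ
  have := hM
  exact ⟨smooth ha E R ψ, fun 𝔭 _ h0 => nodal ha E R M hP ψ 𝔭 h0⟩

end Pool.Agent.K3h62.ND
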